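import Pool.Agent.Helper97.Nag.Goals

/-!
# Project NAG (MP_d3128a_ag): packet EXF (the extreme monomial of the generic section)
-/

set_option autoImplicit false

noncomputable section

namespace Pool.Agent.Helper32.Nag.EXF

open Pool.Agent.Helper97.Nag Finset

open Pool.Agent.Helper97.Tate (qe)

/-- the extreme exponent of `thG i` at the block `l` -/
def Pgi {r p : ℕ} (l : ℕ) (i : Fin r × Fin p) : HH r p :=
  if l ≤ (i.1 : ℕ) then 0 else (1, -(Pi.single i 1))

/-- its weight -/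
def omi (k : ℕ) {r p : ℕ} (eta : ℝ) (l : ℕ) (i : Fin r × Fin p) : ℝ :=
  if l ≤ (i.1 : ℕ) then (0 : ℝ) else (((i.1 : ℕ) : ℝ) - l) / r + eta / k ^ 2

/-- the sum of the extreme exponents -/
def PG (r p l : ℕ) : HH r p := ∑ i : Fin r × Fin p, Pgi l i

lemma sum_if {M : Type} [AddCommMonoid M] (r p l : ℕ) (hl : l ≤ r) (f : ℕ → M) :
    ∑ i : Fin r × Fin p, (if l ≤ (i.1 : ℕ) then 0 else f (i.1 : ℕ)) =
      p • ∑ t ∈ range l, f t := by
  rw [Fintype.sum_prod_type]
  simp only [sum_const, card_univ, Fintype.card_fin]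
  rw [sum_nsmul, Fin.sum_univ_eq_sum_range (fun t => if l ≤ t then 0 else f t) r]
  congr 1
  rw [← sum_subset (range_subset_range.2 hl)]
  · refine sum_congr rfl fun t ht => if_neg ?_
    rw [mem_range] at ht
    omega
  · intro t _ ht
    rw [mem_range] at ht
    exact if_pos (by omega)

lemma arith (L r e : ℝ) (n : ℕ) : ∑ t ∈ range n, (((t : ℝ) - L) / r + e) =
    ((n : ℝ) * (n - 1) / 2 - n * L) / r + n * e := by
  induction n with
  | zero => simp
  | succ n ih =>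
    rw [sum_range_succ, ih]
    push_cast
    ring

/-- the sum of the weights -/
def tt (k r p : ℕ) (eta : ℝ) (l : ℕ) : ℝ :=
  -((p : ℝ) * l * (l + 1) / (2 * r)) + p * l * eta / k ^ 2

lemma sum_omi (k r p : ℕ) (eta : ℝ) (l : ℕ) (hl : l ≤ r) :
    ∑ i : Fin r × Fin p, omi k eta l i = tt k r p eta l := by
  unfold omi
  rw [sum_if r p l hl (fun t => ((t : ℝ) - l) / r + eta / k ^ 2), arith, nsmul_eq_mul]
  unfold tt
  ring

lemma PG_fst (r p l : ℕ) (hl : l ≤ r) : (PG r p l).1 = (p : ℤ) * l := by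
  unfold PG
  rw [Prod.fst_sum]
  have : ∀ i : Fin r × Fin p, (Pgi l i : HH r p).1 = if l ≤ (i.1 : ℕ) then (0 : ℤ) else (fun _ => 1) (i.1 : ℕ) := by
    intro i
    unfold Pgi
    split_ifs <;> rfl
  rw [sum_congr rfl fun i _ => this i, sum_if r p l hl (fun _ => (1 : ℤ))]
  simp

lemma main_prod (h1 : S_PRDR) (h2 : S_EXH) (k r p : ℕ) (Om eta : ℝ) (hr : 1 ≤ r) (hp : 1 ≤ p)
    (hk : r * p = k ^ 2) (he : 0 < eta) (he2 : eta < p) (l : ℕ) (hl : l < r) (q : ℕ)
    (T : PowerSeries (AddMonoidAlgebra ℚ (HH r p))) (omT : ℝ) (PnT : ℕ) (PgT : HH r p)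
    (hT : ∀ (N : ℕ) (h : HH r p), (PowerSeries.coeff N T).coeff h ≠ 0 →
      omT ≤ N + bH k r p Om eta l h ∧ (omT = N + bH k r p Om eta l h → N = PnT ∧ h = PgT)) :
    (∀ (N : ℕ) (h : HH r p),
      (PowerSeries.coeff N ((∏ i : Fin r × Fin p, thG i) ^ q * T)).coeff h ≠ 0 →
      q * tt k r p eta l + omT ≤ N + bH k r p Om eta l h ∧
        (q * tt k r p eta l + omT = N + bH k r p Om eta l h →
          N = PnT ∧ h = q • PG r p l + PgT)) ∧
    (omT = PnT + bH k r p Om eta l PgT → (PowerSeries.coeff PnT T).coeff PgT ≠ 0 →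
      (PowerSeries.coeff PnT ((∏ i : Fin r × Fin p, thG i) ^ q * T)).coeff
        (q • PG r p l + PgT) ≠ 0 ∧
      q * tt k r p eta l + omT = PnT + bH k r p Om eta l (q • PG r p l + PgT)) := by
  obtain ⟨F, hF⟩ : ∃ F : Option ((Fin r × Fin p) × Fin q) → PowerSeries (AddMonoidAlgebra ℚ (HH r p)),
    F = fun c => c.elim T (fun u => thG u.1) := ⟨_, rfl⟩
  obtain ⟨om, hom⟩ : ∃ om : Option ((Fin r × Fin p) × Fin q) → ℝ,
    om = fun c => c.elim omT (fun u => omi k eta l u.1) := ⟨_, rfl⟩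
  obtain ⟨Pn, hPn⟩ : ∃ Pn : Option ((Fin r × Fin p) × Fin q) → ℕ,
    Pn = fun c => c.elim PnT (fun _ => 0) := ⟨_, rfl⟩
  obtain ⟨Pg, hPg⟩ : ∃ Pg : Option ((Fin r × Fin p) × Fin q) → HH r p,
    Pg = fun c => c.elim PgT (fun u => Pgi l u.1) := ⟨_, rfl⟩
  have eF : ∏ c, F c = (∏ i : Fin r × Fin p, thG i) ^ q * T := by
    rw [hF, Fintype.prod_option, Fintype.prod_prod_type]
    simp only [Option.elim, prod_const, card_univ, Fintype.card_fin]
    rw [prod_pow, mul_comm]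
  have eo : ∑ c, om c = q * tt k r p eta l + omT := by
    rw [hom, Fintype.sum_option, Fintype.sum_prod_type]
    simp only [Option.elim, sum_const, card_univ, Fintype.card_fin]
    rw [sum_nsmul, sum_omi k r p eta l hl.le, nsmul_eq_mul, add_comm]
  have en : ∑ c, Pn c = PnT := by
    rw [hPn, Fintype.sum_option]
    simp only [Option.elim, sum_const_zero, add_zero]
  have eg : ∑ c, Pg c = q • PG r p l + PgT := by
    rw [hPg, Fintype.sum_option, Fintype.sum_prod_type]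
    simp only [Option.elim, sum_const, card_univ, Fintype.card_fin]
    rw [sum_nsmul, add_comm]
    rfl
  have hyp : ∀ c ∈ (univ : Finset (Option ((Fin r × Fin p) × Fin q))), ∀ (N : ℕ) (g : HH r p),
      (PowerSeries.coeff N (F c)).coeff g ≠ 0 →
      om c ≤ N + bH k r p Om eta l g ∧ (om c = N + bH k r p Om eta l g → N = Pn c ∧ g = Pg c) := by
    intro c _ N g hc
    rw [hF] at hc
    rw [hom, hPn, hPg]
    rcases c with _ | u
    · exact hT N g hc
    · exact (h2 k r p Om eta hr hp hk he he2 l u.1 hl).1 N g hc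
  obtain ⟨A1, A2⟩ := h1 (HH r p) (bH k r p Om eta l) _ univ F om Pn Pg hyp
  rw [eF, eo, en, eg] at A2
  rw [eF, eo, en, eg] at A1
  refine ⟨A1, fun hw hc => ?_⟩
  have hall : ∀ c ∈ (univ : Finset (Option ((Fin r × Fin p) × Fin q))),
      om c = Pn c + bH k r p Om eta l (Pg c) := by
    intro c _
    rw [hom, hPn, hPg]
    rcases c with _ | u
    · exact hw
    · have := (h2 k r p Om eta hr hp hk he he2 l u.1 hl).2.1
      simp only [Option.elim, Nat.cast_zero, zero_add]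
      exact this
  have hsum : q * tt k r p eta l + omT = PnT + bH k r p Om eta l (q • PG r p l + PgT) := by
    rw [← eo, ← en, ← eg, sum_congr rfl hall, sum_add_distrib, map_sum]
    push_cast
    rfl
  refine ⟨?_, hsum⟩
  rw [(A2 hsum).1 hall, prod_ne_zero_iff]
  intro c _
  rw [hF, hPn, hPg]
  rcases c with _ | u
  · exact hc
  · exact (h2 k r p Om eta hr hp hk he he2 l u.1 hl).2.2

theorem t (h1 : S_PRDR) (h2 : S_EXH) (h3 : S_EXT) (h4 : S_WID) (h5 : S_NCT) : S_EXF := by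
  intro k r p d m Om eta hr hp hrp hk hkm he he2 hne
  obtain ⟨κm, hκm⟩ : ∃ κm : ℝ, κm = kap k d m m := ⟨_, rfl⟩
  obtain ⟨Cm, hCm⟩ : ∃ Cm : ℝ, Cm = κm / 2 - κm * wx k r p Om eta 0 := ⟨_, rfl⟩
  refine ⟨fun l => Cm * l / r + (l : ℝ) ^ 2 * κm / (2 * r ^ 2) - Om * l * m / r, ?_⟩
  intro l j n hl hI
  rcases hI with ⟨hj, hn1, hn2⟩ | ⟨hj, rfl, rfl⟩
  · -- the regular levels
    have hmax : k * max j m < d := by
      rcases max_choice j m with h | h <;> rw [h] <;> assumption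
    obtain ⟨κ, hκ⟩ : ∃ κ : ℕ, κ = kap k d m j := ⟨_, rfl⟩
    have hκ1 : 1 ≤ κ := by
      rw [hκ]
      unfold kap
      exact Nat.mul_pos hk (by omega)
    have hκpos : (0 : ℝ) < κ := by exact_mod_cast hκ1
    have hr0 : (0 : ℝ) < r := by exact_mod_cast hr
    rw [← hκ] at hn1 hn2
    -- the residue
    obtain ⟨ρ, hρ⟩ : ∃ ρ : ℕ, ρ = (n % (κ : ℤ)).toNat := ⟨_, rfl⟩
    have hκz : (0 : ℤ) < κ := by exact_mod_cast hκ1
    have hρz : (ρ : ℤ) = n % κ := by
      rw [hρ, Int.toNat_of_nonneg (Int.emod_nonneg _ hκz.ne')]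
    have hρlt : ρ < κ := by
      have := Int.emod_lt_of_pos n hκz
      rw [← hρz] at this
      exact_mod_cast this
    obtain ⟨a0, ha0⟩ : ∃ a0 : ℤ, a0 = n / κ := ⟨_, rfl⟩
    have hn : (ρ : ℤ) + κ * a0 = n := by
      rw [hρz, ha0]
      exact Int.emod_add_mul_ediv n κ
    obtain ⟨C0, hC0⟩ : ∃ C0 : ℝ, C0 = κ / 2 - κ * wx k r p Om eta 0 - ((m - j : ℕ) : ℝ) * Om :=
      ⟨_, rfl⟩
    obtain ⟨A, hA⟩ : ∃ A : ℝ, A = Aj k d m Om eta j := ⟨_, rfl⟩
    rw [← hA] at hn1 hn2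
    have hWID := fun l' : ℕ => h4 k r p d m Om eta hr hp hrp hk hkm j l' (κ : ℝ) C0 Cm κm hj.le
      (by rw [hκ]) hκm hC0 hCm
    have hCA : C0 = A + κ / (2 * r) := by
      have := (hWID 0).1
      rw [← hA] at this
      linarith
    have hEXT := fun l' : ℕ => h3 k r p Om eta hr hp hrp hk κ ρ (m - j) l' hκ1 hρlt C0 hC0
    have hne' : A + l * (κ / r) ≠ n := by
      have := hne j hj l n hl
      rw [← hκ, ← hA] at this
      exact this
    obtain ⟨gap, hgap, hN⟩ := h5 r κ A κ hr hκ1 rfl l n hl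
      (lt_of_le_of_ne hn1 hne') hn2
    obtain ⟨D, hD⟩ : ∃ D : ℝ, D = (n - (A + (l + 1 / 2) * (κ / r))) ^ 2 := ⟨_, rfl⟩
    rw [← hD] at hN
    obtain ⟨c0, hc0⟩ : ∃ c0 : ℝ, c0 = - ((ρ : ℝ) ^ 2 - κ * ρ) / (2 * κ) - (m - j : ℕ) * ρ * Om / κ :=
      ⟨_, rfl⟩
    -- weights of the monomials of the last factor
    have hw : ∀ (l' : ℕ) (a : ℤ),
        ((qe κ ρ a : ℤ) : ℝ) +
          bH k r p Om eta l' ((ρ : ℤ) + κ * a, fun _ => ((m - j : ℕ) : ℤ) * a) =
        (((ρ : ℤ) + κ * a : ℤ) - (A + (l' + 1 / 2) * (κ / r))) ^ 2 / (2 * κ) -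
          (C0 + l' * κ / r) ^ 2 / (2 * κ) + c0 := by
      intro l' a
      rw [((hEXT l').2 a).2.2, hc0]
      have : A + ((l' : ℝ) + 1 / 2) * (κ / r) = C0 + l' * κ / r := by
        rw [hCA]
        field_simp
        ring
      rw [this]
      ring
    -- the identity of weights
    have hid : ∀ l' : ℕ, ((j - m : ℕ) : ℝ) * tt k r p eta l' - (C0 + l' * κ / r) ^ 2 / (2 * κ) +
        j * (Om * l' / r) + (Cm * l' / r + (l' : ℝ) ^ 2 * κm / (2 * r ^ 2) - Om * l' * m / r) =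
        - (C0 ^ 2 / (2 * κ)) := by
      intro l'
      have h := (hWID l').2
      have e1 : (C0 + l' * κ / r) ^ 2 / (2 * κ) =
          C0 ^ 2 / (2 * κ) + C0 * l' / r + (l' : ℝ) ^ 2 * κ / (2 * r ^ 2) := by
        field_simp
        ring
      rw [e1]
      unfold tt
      linarith
    obtain ⟨T, hT⟩ : ∃ T : PowerSeries (AddMonoidAlgebra ℚ (HH r p)),
      T = ThG r p κ (ρ : ℤ) (m - j) := ⟨_, rfl⟩
    have hFG : FG k r p d m j ρ = (∏ i : Fin r × Fin p, thG i) ^ (j - m) * T := by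
      unfold FG
      rw [if_neg hj.ne, hT, ← hκ]
    have hmon : ∀ (N : ℕ) (h : HH r p), (PowerSeries.coeff N T).coeff h ≠ 0 →
        ∃ a : ℤ, h = ((ρ : ℤ) + κ * a, fun _ => ((m - j : ℕ) : ℤ) * a) ∧
          ((qe κ ρ a : ℤ) : ℝ) = N ∧ qe κ ρ a = N := by
      intro N h hh
      rw [hT] at hh
      obtain ⟨a, ha, hq, _⟩ := (hEXT l).1 N h hh
      exact ⟨a, ha, by rw [hq]; push_cast; rfl, hq⟩
    have hqn : 0 ≤ qe κ ρ a0 := ((hEXT l).2 a0).1
    obtain ⟨PgT, hPgT⟩ : ∃ PgT : HH r p,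
      PgT = ((ρ : ℤ) + κ * a0, fun _ => ((m - j : ℕ) : ℤ) * a0) := ⟨_, rfl⟩
    have hqr : (((qe κ ρ a0).toNat : ℕ) : ℝ) = ((qe κ ρ a0 : ℤ) : ℝ) := by
      exact_mod_cast congrArg (fun z : ℤ => (z : ℝ)) (Int.toNat_of_nonneg hqn)
    -- the block l
    obtain ⟨B1, B2⟩ := main_prod h1 h2 k r p Om eta hr hp hrp he he2 l hl (j - m) T
      (D / (2 * κ) - (C0 + l * κ / r) ^ 2 / (2 * κ) + c0) (qe κ ρ a0).toNat PgT (by
        intro N h hh
        obtain ⟨a, rfl, hq, hq'⟩ := hmon N h hh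
        rw [← hq, hw l a]
        by_cases haa : a = a0
        · subst haa
          have e : (((ρ : ℤ) + κ * a : ℤ) : ℝ) = n := by rw [hn]
          rw [e, hD]
          refine ⟨le_rfl, fun _ => ⟨?_, hPgT.symm⟩⟩
          rw [hq']
          simp
        · have hne2 : ((l : ℕ), (ρ : ℤ) + κ * a) ≠ (l, n) := by
            intro h0
            have h0' := (Prod.mk.inj h0).2
            rw [← hn] at h0'
            apply haa
            have : (κ : ℤ) * a = κ * a0 := by linarith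
            exact mul_left_cancel₀ hκz.ne' this
          have hdv : (κ : ℤ) ∣ n - ((ρ : ℤ) + κ * a) := ⟨a0 - a, by rw [← hn]; ring⟩
          have h7 := hN l ((ρ : ℤ) + κ * a) hl hdv hne2
          have h8 : D / (2 * κ) < (((ρ : ℤ) + κ * a : ℤ) - (A + (l + 1 / 2) * (κ / r))) ^ 2 / (2 * κ) := by
            apply div_lt_div_of_pos_right _ (by positivity)
            linarith
          exact ⟨by linarith, fun h0 => absurd h0 (by linarith)⟩)
    have hwl : D / (2 * κ) - (C0 + l * κ / r) ^ 2 / (2 * κ) + c0 =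
        ((qe κ ρ a0).toNat : ℕ) + bH k r p Om eta l PgT := by
      rw [hqr, hPgT, hw l a0]
      have e : (((ρ : ℤ) + κ * a0 : ℤ) : ℝ) = n := by rw [hn]
      rw [e, hD]
    have hcT : (PowerSeries.coeff (qe κ ρ a0).toNat T).coeff PgT ≠ 0 := by
      rw [hT, hPgT, ((hEXT l).2 a0).2.1]
      exact zpow_ne_zero _ (by norm_num)
    obtain ⟨B3, B4⟩ := B2 hwl hcT
    refine ⟨D / (2 * κ) - C0 ^ 2 / (2 * κ) + c0, gap / (4 * κ), fun _ => (qe κ ρ a0).toNat,
      fun l' => (j - m) • PG r p l' + PgT, by positivity, ?_, ?_, ?_, ?_⟩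
    · show ((j - m) • PG r p l + PgT).1 = _
      rw [Prod.fst_add, Prod.smul_fst, PG_fst r p l hl.le, hPgT]
      show (j - m) • ((p : ℤ) * l) + ((ρ : ℤ) + κ * a0) = _
      rw [hn, nsmul_eq_mul]
      ring
    · rw [← hκ, ← hρ, hFG]
      exact B3
    · have := hid l
      show D / (2 * κ) - C0 ^ 2 / (2 * κ) + c0 = ((qe κ ρ a0).toNat : ℕ) +
        bH k r p Om eta l ((j - m) • PG r p l + PgT) + j * (Om * l / r) +
          (Cm * l / r + (l : ℝ) ^ 2 * κm / (2 * r ^ 2) - Om * l * m / r)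
      rw [← B4]
      linarith
    · intro l' N h hl' hh
      rw [← hκ, ← hρ, hFG] at hh
      show D / (2 * κ) - C0 ^ 2 / (2 * κ) + c0 ≤ N + bH k r p Om eta l' h + j * (Om * l' / r) +
          (Cm * l' / r + (l' : ℝ) ^ 2 * κm / (2 * r ^ 2) - Om * l' * m / r) ∧
        (D / (2 * κ) - C0 ^ 2 / (2 * κ) + c0 = N + bH k r p Om eta l' h + j * (Om * l' / r) +
          (Cm * l' / r + (l' : ℝ) ^ 2 * κm / (2 * r ^ 2) - Om * l' * m / r) →
          N = (qe κ ρ a0).toNat ∧ h = (j - m) • PG r p l' + PgT) ∧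
        (k * j < d → l' ≠ l → D / (2 * κ) - C0 ^ 2 / (2 * κ) + c0 + gap / (4 * κ) ≤
          N + bH k r p Om eta l' h + j * (Om * l' / r) +
          (Cm * l' / r + (l' : ℝ) ^ 2 * κm / (2 * r ^ 2) - Om * l' * m / r))
      have hi := hid l'
      by_cases hll : l' = l
      · subst hll
        obtain ⟨B5, B6⟩ := B1 N h hh
        exact ⟨by linarith, fun h0 => B6 (by linarith), fun _ h0 => absurd rfl h0⟩
      · -- another block
        obtain ⟨B5, _⟩ := (main_prod h1 h2 k r p Om eta hr hp hrp he he2 l' hl' (j - m) T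
          ((D + gap / 2) / (2 * κ) - (C0 + l' * κ / r) ^ 2 / (2 * κ) + c0) 0 0 (by
            intro N h hh
            obtain ⟨a, rfl, hq, hq'⟩ := hmon N h hh
            rw [← hq, hw l' a]
            have hne2 : ((l' : ℕ), (ρ : ℤ) + κ * a) ≠ (l, n) := by
              intro h0
              exact hll (Prod.mk.inj h0).1
            have hdv : (κ : ℤ) ∣ n - ((ρ : ℤ) + κ * a) := ⟨a0 - a, by rw [← hn]; ring⟩
            have h7 := hN l' ((ρ : ℤ) + κ * a) hl' hdv hne2
            have h8 : (D + gap / 2) / (2 * κ) <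
                (((ρ : ℤ) + κ * a : ℤ) - (A + (l' + 1 / 2) * (κ / r))) ^ 2 / (2 * κ) := by
              apply div_lt_div_of_pos_right _ (by positivity)
              linarith
            exact ⟨by linarith, fun h0 => absurd h0 (by linarith)⟩)).1 N h hh
        have e9 : (D + gap / 2) / (2 * κ) = D / (2 * κ) + gap / (4 * κ) := by
          field_simp
          ring
        rw [e9] at B5
        have hg4 : 0 < gap / (4 * κ) := by positivity
        exact ⟨by linarith, fun h0 => absurd h0 (by linarith), fun _ _ => by linarith⟩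
  · -- the last level
    have hjm : m < j := by
      by_contra h0
      have : k * j ≤ k * m := Nat.mul_le_mul_left k (by omega)
      omega
    have hκ0 : kap k d m j = 0 := by
      unfold kap
      rw [max_eq_left hjm.le, hj, Nat.sub_self, Nat.mul_zero]
    rw [hκ0]
    have hFG : ∀ ρ, FG k r p d m j ρ = (∏ i : Fin r × Fin p, thG i) ^ (j - m) *
        (1 : PowerSeries (AddMonoidAlgebra ℚ (HH r p))) := by
      intro ρ
      unfold FG
      rw [if_pos hj]
    simp only [hFG]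
    have hWID := fun l' : ℕ => h4 k r p d m Om eta hr hp hrp hk hkm j l' (0 : ℝ) 0 Cm κm hj.le
      (by rw [hκ0]; simp) hκm (by rw [Nat.sub_eq_zero_of_le hjm.le]; simp) hCm
    have hid : ∀ l' : ℕ, ((j - m : ℕ) : ℝ) * tt k r p eta l' +
        j * (Om * l' / r) + (Cm * l' / r + (l' : ℝ) ^ 2 * κm / (2 * r ^ 2) - Om * l' * m / r) = 0 := by
      intro l'
      have h := (hWID l').2
      unfold tt
      simp only [zero_mul, zero_div, mul_zero, neg_zero, sub_zero, zero_add] at h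
      linarith
    have hT : ∀ (l' N : ℕ) (h : HH r p),
        (PowerSeries.coeff N (1 : PowerSeries (AddMonoidAlgebra ℚ (HH r p)))).coeff h ≠ 0 →
        (0 : ℝ) ≤ N + bH k r p Om eta l' h ∧ ((0 : ℝ) = N + bH k r p Om eta l' h → N = 0 ∧ h = 0) := by
      intro l' N h hh
      rw [PowerSeries.coeff_one] at hh
      by_cases hN : N = 0
      · rw [if_pos hN, AddMonoidAlgebra.one_def, AddMonoidAlgebra.coeff_single,
          Finsupp.single_apply] at hh
        have h0 : (0 : HH r p) = h := by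
          by_contra h0
          exact hh (if_neg h0)
        subst h0
        subst hN
        simp
      · rw [if_neg hN] at hh
        exact absurd rfl hh
    have hmp := fun (l' : ℕ) (hl' : l' < r) => main_prod h1 h2 k r p Om eta hr hp hrp he he2 l' hl'
      (j - m) 1 0 0 0 (hT l')
    refine ⟨0, 1, fun _ => 0, fun l' => (j - m) • PG r p l' + 0, one_pos, ?_, ?_, ?_, ?_⟩
    · show ((j - m) • PG r p 0 + 0).1 = _
      rw [Prod.fst_add, Prod.smul_fst, PG_fst r p 0 hl.le]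
      simp
    · exact ((hmp 0 hl).2 (by simp) (by simp [AddMonoidAlgebra.one_def])).1
    · have := ((hmp 0 hl).2 (by simp) (by simp [AddMonoidAlgebra.one_def])).2
      have h2' := hid 0
      show (0 : ℝ) = ((0 : ℕ) : ℝ) + bH k r p Om eta 0 ((j - m) • PG r p 0 + 0) + j * (Om * ((0 : ℕ) : ℝ) / r) +
          (Cm * ((0 : ℕ) : ℝ) / r + (((0 : ℕ) : ℝ)) ^ 2 * κm / (2 * r ^ 2) - Om * ((0 : ℕ) : ℝ) * m / r)
      rw [← this]
      linarith
    · intro l' N h hl' hh
      have hi := hid l'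
      obtain ⟨B5, B6⟩ := (hmp l' hl').1 N h hh
      show (0 : ℝ) ≤ N + bH k r p Om eta l' h + j * (Om * l' / r) +
          (Cm * l' / r + (l' : ℝ) ^ 2 * κm / (2 * r ^ 2) - Om * l' * m / r) ∧
        ((0 : ℝ) = N + bH k r p Om eta l' h + j * (Om * l' / r) +
          (Cm * l' / r + (l' : ℝ) ^ 2 * κm / (2 * r ^ 2) - Om * l' * m / r) →
          N = 0 ∧ h = (j - m) • PG r p l' + 0) ∧
        (k * j < d → l' ≠ 0 → (0 : ℝ) + 1 ≤ N + bH k r p Om eta l' h + j * (Om * l' / r) +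
          (Cm * l' / r + (l' : ℝ) ^ 2 * κm / (2 * r ^ 2) - Om * l' * m / r))
      exact ⟨by linarith, fun h0 => B6 (by linarith), fun h0 => absurd h0 (by omega)⟩

end Pool.Agent.Helper32.Nag.EXF
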